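import Pool.Agent.MP_ab7c65_al.H52T.Code

/-!
The group of a Tanner code in which adjacent vertex groups commute.
-/

namespace Pool.Agent.MP_ab7c65_al.H52T

open Finset Multiplicative Pool.Agent.MP_ab7c65_al.PF

theorem exists_tanner (p : ℕ) [Fact p.Prime] (K : Type) [Field K] [Algebra (ZMod p) K]
    {e : ℕ} (bK : Module.Basis (Fin e) (ZMod p) K) {k r : ℕ} (hk : 0 < k)
    (L : Fin k → Fin (r + 1) → K) (N : Type) [Fintype N] (rot : N × Fin k → N × Fin k)
    (hrot : Function.Involutive rot) :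
    ∃ (d n : ℕ) (rels : Fin n → FreeGroup (Fin d)),
      2 * (e * Fintype.card N * (r + 1)) ≤ 2 * d + e * Fintype.card N * k ∧
      n ≤ Fintype.card N * (k * (4 * ((r + 1) * e) ^ 2 + 5 * ((r + 1) * e)) + (r + 1) * e) ∧
      (∀ i, rels i ∈ Za p _ 1) ∧
      ∃ θ : N → (Multiplicative (Fin (r + 1) → K) →* PresentedGroup (Set.range rels)),
        (∀ u i (c : K), θ u (ofAdd (c • L i)) =
          θ (rot (u, i)).1 (ofAdd (c • L (rot (u, i)).2))) ∧
        (∀ u i x y, Commute (θ u x) (θ (rot (u, i)).1 y)) ∧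
        ∀ Z : Subgroup (PresentedGroup (Set.range rels)), (∀ u x, θ u x ∈ Z) → ∀ g, g ∈ Z := by
  classical
  let vec : N × Fin k → (N → Fin (r + 1) → K) := fun h =>
    Pi.single h.1 (L h.2) - Pi.single (rot h).1 (L (rot h).2)
  let idx := Fintype.equivFin (N × Fin k)
  let O : Finset (N × Fin k) := univ.filter fun h => idx h < idx (rot h)
  have hO : 2 * O.card ≤ Fintype.card N * k := by
    have h1 : Disjoint O (O.map hrot.toPerm.toEmbedding) := by
      rw [Finset.disjoint_left]
      intro h h1 h2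
      obtain ⟨h', h3, rfl⟩ := Finset.mem_map.mp h2
      have h4 := (Finset.mem_filter.mp h1).2
      have h5 := (Finset.mem_filter.mp h3).2
      change idx (rot h') < idx (rot (rot h')) at h4
      rw [hrot] at h4
      exact lt_asymm h4 h5
    have h2 := Finset.card_le_univ (O.disjUnion _ h1)
    rw [Finset.card_disjUnion, Finset.card_map, Fintype.card_prod, Fintype.card_fin] at h2
    omega
  let W : Submodule K (N → Fin (r + 1) → K) := Submodule.span K (O.image vec : Finset _)
  have hW0 : ∀ h, idx h < idx (rot h) → vec h ∈ W := fun h hh =>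
    Submodule.subset_span (Finset.mem_coe.mpr
      (Finset.mem_image_of_mem vec (Finset.mem_filter.mpr ⟨mem_univ _, hh⟩)))
  have hW : ∀ h, vec h ∈ W := fun h => by
    rcases lt_trichotomy (idx h) (idx (rot h)) with h1 | h1 | h1
    · exact hW0 h h1
    · have : vec h = 0 := by simp only [vec, ← idx.injective h1, sub_self]
      rw [this]; exact zero_mem _
    · have : vec h = -vec (rot h) := by simp only [vec, hrot h, neg_sub]
      rw [this]; exact neg_mem (hW0 _ (by rwa [hrot]))
  have hfin : Module.Finite (ZMod p) K := Module.Finite.of_basis bK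
  have hfin2 : Module.Finite (ZMod p) ((N → Fin (r + 1) → K) ⧸ W) := Module.Finite.trans K _
  have d1 : Module.finrank K ((N → Fin (r + 1) → K) ⧸ W) + Module.finrank K W =
      Fintype.card N * (r + 1) := by
    rw [Submodule.finrank_quotient_add_finrank]; simp [Module.finrank_pi_fintype]
  have d2 : Module.finrank K W ≤ O.card :=
    (finrank_span_finset_le_card (R := K) (O.image vec)).trans Finset.card_image_le
  have d3 : e * Module.finrank K ((N → Fin (r + 1) → K) ⧸ W) =
      Module.finrank (ZMod p) ((N → Fin (r + 1) → K) ⧸ W) := by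
    rw [← Module.finrank_mul_finrank (ZMod p) K, Module.finrank_eq_card_basis bK, Fintype.card_fin]
  let j : N × Fin k → ((Fin (r + 1) → K) × (Fin (r + 1) → K)) →+ ((N → Fin (r + 1) → K) ⧸ W) :=
    fun h => AddMonoidHom.mk' (fun x => W.mkQ (Pi.single h.1 x.1 + Pi.single (rot h).1 x.2))
      (fun x y => by
        rw [← map_add, Prod.fst_add, Prod.snd_add, Pi.single_add, Pi.single_add]
        exact congrArg W.mkQ (add_add_add_comm _ _ _ _))
  have hj : ∀ h x, j h x = W.mkQ (Pi.single h.1 x.1 + Pi.single (rot h).1 x.2) := fun _ _ => rfl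
  let sc : Fin k → (Fin (r + 1) → K) →+ (Fin (r + 1) → K) := fun i =>
    AddMonoidHom.mk' (fun c => c 0 • L i) (fun x y => add_smul _ _ _)
  have hsc : ∀ i c, sc i c = c 0 • L i := fun _ _ => rfl
  let i0 : Fin k := ⟨0, hk⟩
  let bE := Pi.basis fun _ : Fin (r + 1) => bK
  obtain ⟨n, rels, hn, hZ, θ, h1, h2⟩ := exists_pres (p := p)
    (I := (N × Fin k) ⊕ (N × Fin k) ⊕ (N × Fin k))
    (Module.finBasis (ZMod p) ((N → Fin (r + 1) → K) ⧸ W)) (bE.prod bE) bE j
    (Sum.elim id (Sum.elim id id))
    (Sum.elim (fun h => (h.1, i0)) (Sum.elim (fun h => ((rot h).1, i0)) id))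
    (Sum.elim (fun _ => AddMonoidHom.inl _ _) (Sum.elim (fun _ => AddMonoidHom.inr _ _)
      (fun h => (AddMonoidHom.inl _ _).comp (sc h.2))))
    (Sum.elim (fun _ => AddMonoidHom.inl _ _) (Sum.elim (fun _ => AddMonoidHom.inl _ _)
      (fun h => (AddMonoidHom.inr _ _).comp (sc (rot h).2))))
    (by
      rintro (h | h | h) c
      · simp [hj]
      · simp [hj]
      · simp only [Sum.elim_inr, id, hj, AddMonoidHom.comp_apply, AddMonoidHom.inl_apply,
          AddMonoidHom.inr_apply, Pi.single_zero, add_zero, zero_add, hsc, Pi.single_smul']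
        rw [← sub_eq_zero, ← map_sub, ← smul_sub]
        exact (Submodule.Quotient.mk_eq_zero W).mpr (W.smul_mem _ (hW h)))
    (fun Z hZ y => by
      obtain ⟨f, rfl⟩ := W.mkQ_surjective y
      rw [← Finset.univ_sum_single f, map_sum]
      refine sum_mem fun u _ => ?_
      have := hZ (u, i0) (f u, 0)
      rwa [hj, Pi.single_zero, add_zero] at this)
  have a1 : ∀ u i x, θ (u, i) (ofAdd (x, 0)) = θ (u, i0) (ofAdd (x, 0)) := fun u i x =>
    h1 (.inl (u, i)) x
  have a2 : ∀ u i x, θ (u, i) (ofAdd (0, x)) = θ ((rot (u, i)).1, i0) (ofAdd (x, 0)) :=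
    fun u i x => h1 (.inr (.inl (u, i))) x
  have a3 : ∀ u i (c : K), θ (u, i) (ofAdd (c • L i, 0)) =
      θ (u, i) (ofAdd (0, c • L (rot (u, i)).2)) :=
    fun u i c => h1 (.inr (.inr (u, i))) (fun _ => c)
  refine ⟨_, n, rels, ?_, ?_, hZ,
    fun u => (θ (u, i0)).comp (AddMonoidHom.toMultiplicative (AddMonoidHom.inl _ _)),
    fun u i c => ((a1 u i _).symm.trans (a3 u i c)).trans (a2 u i _), fun u i x y => ?_,
    fun Z hZ' => h2 Z fun l x => ?_⟩
  · rw [← d3]
    have := Nat.mul_le_mul_left e (show 2 * (Fintype.card N * (r + 1)) ≤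
      2 * Module.finrank K ((N → Fin (r + 1) → K) ⧸ W) + Fintype.card N * k by omega)
    linarith
  · rw [hn, ← d3]
    have := Nat.mul_le_mul_left e (show Module.finrank K ((N → Fin (r + 1) → K) ⧸ W) ≤
      Fintype.card N * (r + 1) by omega)
    simp only [Fintype.card_sum, Fintype.card_prod, Fintype.card_fin, Fintype.card_sigma,
      Finset.sum_const, Finset.card_univ, smul_eq_mul]
    linarith
  · change Commute (θ (u, i0) (ofAdd (toAdd x, 0))) (θ ((rot (u, i)).1, i0) (ofAdd (toAdd y, 0)))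
    rw [← a1 u i, ← a2 u i]
    exact (Commute.all _ _).map _
  · have : x = ofAdd ((toAdd x).1, 0) * ofAdd (0, (toAdd x).2) := by
      rw [← ofAdd_add, Prod.mk_add_mk, add_zero, zero_add]; rfl
    rw [this, map_mul]
    refine mul_mem ?_ ?_
    · rw [show l = (l.1, l.2) from rfl, a1]; exact hZ' l.1 (ofAdd (toAdd x).1)
    · rw [show l = (l.1, l.2) from rfl, a2]; exact hZ' _ (ofAdd (toAdd x).2)

end Pool.Agent.MP_ab7c65_al.H52T
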