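import Pool.Agent.MP_ab7c65_al.Mg.PF_Fab

/-!
A finite presentation of the colimit of elementary abelian line groups.
-/

namespace Pool.Agent.MP_ab7c65_al.H52T

open Finset Multiplicative Pool.Agent.MP_ab7c65_al.PF
open scoped commutatorElement

variable {p : ℕ} [Fact p.Prime]

lemma exists_hom_basis {U κ G : Type*} [AddCommGroup U] [Module (ZMod p) U] [Fintype κ] [Group G]
    (b : Module.Basis κ (ZMod p) U) (g : κ → G) (hc : ∀ k l, Commute (g k) (g l))
    (hp : ∀ k, g k ^ p = 1) : ∃ θ : Multiplicative U →* G, ∀ k, θ (ofAdd (b k)) = g k := by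
  classical
  let φ : κ → (ZMod p →+ Additive G) := fun k =>
    ZMod.lift p ⟨zmultiplesHom (Additive G) (Additive.ofMul (g k)), by
      rw [zmultiplesHom_apply, natCast_zsmul, ← ofMul_pow, hp, ofMul_one]⟩
  have hφ : ∀ k (n : ℤ), φ k n = n • Additive.ofMul (g k) := fun k n => by
    simp only [φ, ZMod.lift_coe, zmultiplesHom_apply]
  have hcomm : Pairwise fun i j => ∀ x y, AddCommute (φ i x) (φ j y) := fun i j _ x y => by
    obtain ⟨x, rfl⟩ := ZMod.intCast_surjective x
    obtain ⟨y, rfl⟩ := ZMod.intCast_surjective y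
    rw [hφ, hφ]
    have h : AddCommute (Additive.ofMul (g i)) (Additive.ofMul (g j)) :=
      congrArg Additive.ofMul (hc i j).eq
    exact h.zsmul_zsmul x y
  refine ⟨AddMonoidHom.toMultiplicativeLeft
    ((AddMonoidHom.noncommPiCoprod φ hcomm).comp b.equivFun.toLinearMap.toAddMonoidHom),
    fun k => ?_⟩
  have e : b.equivFun (b k) = Pi.single k 1 := by
    ext l; rw [Module.Basis.equivFun_self, Pi.single_apply]; simp only [eq_comm]
  change Additive.toMul (AddMonoidHom.noncommPiCoprod φ hcomm (b.equivFun (b k))) = g k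
  rw [e, AddMonoidHom.noncommPiCoprod_single]
  have := hφ k 1
  rw [Int.cast_one, one_smul] at this
  rw [this]; rfl

lemma mem_of_basis {U κ : Type*} [AddCommGroup U] [Module (ZMod p) U]
    (b : Module.Basis κ (ZMod p) U) (Z : AddSubgroup U) (h : ∀ k, b k ∈ Z) (x : U) : x ∈ Z := by
  have : (⊤ : Submodule (ZMod p) U) ≤ AddSubgroup.toZModSubmodule p Z := by
    rw [← b.span_eq, Submodule.span_le]
    rintro _ ⟨k, rfl⟩
    exact h k
  exact this (Submodule.mem_top (x := x))

lemma hom_ext_basis {U κ G : Type*} [AddCommGroup U] [Module (ZMod p) U] [Group G]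
    (b : Module.Basis κ (ZMod p) U) {f g : Multiplicative U →* G}
    (h : ∀ k, f (ofAdd (b k)) = g (ofAdd (b k))) (x : U) : f (ofAdd x) = g (ofAdd x) :=
  mem_of_basis b (Subgroup.toAddSubgroup' (f.eqLocus g)) h x

lemma lift_surj {U κ : Type*} [AddCommGroup U] [Module (ZMod p) U]
    (b : Module.Basis κ (ZMod p) U) :
    Function.Surjective (FreeGroup.lift fun k => ofAdd (b k)) := fun x =>
  mem_of_basis b (Subgroup.toAddSubgroup' (FreeGroup.lift fun k => ofAdd (b k)).range)
    (fun k => ⟨FreeGroup.of k, FreeGroup.lift_apply_of⟩) (toAdd x)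

lemma comm_mem_Za {G : Type} [Group G] (g h : G) : ⁅g, h⁆ ∈ Za p G 1 := itc_mem_Za g h 1

lemma ker_le_Za {A κ : Type} [AddCommGroup A] [Module (ZMod p) A] [Fintype κ]
    (b : Module.Basis κ (ZMod p) A) {x : FreeGroup κ}
    (hx : FreeGroup.lift (fun k => ofAdd (b k)) x = 1) : x ∈ Za p (FreeGroup κ) 1 := by
  have hcm := comm_mem_Za (p := p) (G := FreeGroup κ)
  have hN : (Za p (FreeGroup κ) 1).Normal := ⟨fun n hn g => by
    have : g * n * g⁻¹ = ⁅g, n⁆ * n := by rw [commutatorElement_def]; group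
    rw [this]; exact mul_mem (hcm g n) hn⟩
  obtain ⟨θ, hθ⟩ := exists_hom_basis b
    (fun k => QuotientGroup.mk' (Za p (FreeGroup κ) 1) (FreeGroup.of k))
    (fun k l => by
      rw [← commutatorElement_eq_one_iff_commute, ← map_commutatorElement]
      exact (QuotientGroup.eq_one_iff _).mpr (hcm _ _))
    (fun k => by
      rw [← map_pow]
      exact (QuotientGroup.eq_one_iff _).mpr (pow_mem_Za _ (Fact.out : p.Prime).one_lt))
  have e : θ.comp (FreeGroup.lift fun k => ofAdd (b k)) =
      QuotientGroup.mk' (Za p (FreeGroup κ) 1) := by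
    ext k; rw [MonoidHom.comp_apply, FreeGroup.lift_apply_of, hθ]
  have := DFunLike.congr_fun e x
  rw [MonoidHom.comp_apply, hx, map_one] at this
  exact (QuotientGroup.eq_one_iff _).mp this.symm

theorem exists_pres {A U E Ln I κ μ : Type} [AddCommGroup A] [Module (ZMod p) A]
    [AddCommGroup U] [Module (ZMod p) U] [AddCommGroup E] [Module (ZMod p) E] [Fintype Ln]
    [Fintype I] [Fintype κ] [Fintype μ] {d : ℕ} (bA : Module.Basis (Fin d) (ZMod p) A)
    (bU : Module.Basis κ (ZMod p) U) (bE : Module.Basis μ (ZMod p) E) (j : Ln → U →+ A)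
    (l1 l2 : I → Ln) (i1 i2 : I → E →+ U) (hj : ∀ f c, j (l1 f) (i1 f c) = j (l2 f) (i2 f c))
    (hs : ∀ Z : AddSubgroup A, (∀ l x, j l x ∈ Z) → ∀ y, y ∈ Z) :
    ∃ (n : ℕ) (rels : Fin n → FreeGroup (Fin d)),
      n = Fintype.card Ln * (Fintype.card κ * Fintype.card κ + Fintype.card κ) +
        Fintype.card I * Fintype.card μ + d ∧
      (∀ i, rels i ∈ Za p (FreeGroup (Fin d)) 1) ∧
      ∃ θ : Ln → (Multiplicative U →* PresentedGroup (Set.range rels)),
        (∀ f c, θ (l1 f) (ofAdd (i1 f c)) = θ (l2 f) (ofAdd (i2 f c))) ∧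
        ∀ Z : Subgroup (PresentedGroup (Set.range rels)), (∀ l x, θ l x ∈ Z) → ∀ g, g ∈ Z := by
  classical
  let π : FreeGroup (Fin d) →* Multiplicative A := FreeGroup.lift fun k => ofAdd (bA k)
  let πU : FreeGroup κ →* Multiplicative U := FreeGroup.lift fun k => ofAdd (bU k)
  choose y hy using fun l k => lift_surj bA (ofAdd (j l (bU k)))
  choose s hsec using lift_surj bU
  have hπ : ∀ l z, π (FreeGroup.lift (y l) z) = ofAdd (j l (toAdd (πU z))) := fun l z => by
    have : π.comp (FreeGroup.lift (y l)) = (AddMonoidHom.toMultiplicative (j l)).comp πU := by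
      ext k
      rw [MonoidHom.comp_apply, MonoidHom.comp_apply, FreeGroup.lift_apply_of,
        FreeGroup.lift_apply_of]
      exact congrArg toAdd (hy l k)
    exact DFunLike.congr_fun this z
  let Y : Subgroup (FreeGroup (Fin d)) := ⨆ l, (FreeGroup.lift (y l)).range
  have hY : ∀ k, ∃ z ∈ Y, π z = ofAdd (bA k) := fun k =>
    hs (Subgroup.toAddSubgroup' (Y.map π)) (fun l x => ⟨FreeGroup.lift (y l) (s (ofAdd x)),
      le_iSup (fun l => (FreeGroup.lift (y l)).range) l ⟨_, rfl⟩, by
        rw [hπ]; exact congrArg (fun t => ofAdd (j l (toAdd t))) (hsec (ofAdd x))⟩) (bA k)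
  choose z hzY hz using hY
  let rel : (Ln × (κ × κ ⊕ κ) ⊕ I × μ) ⊕ Fin d → FreeGroup (Fin d) := Sum.elim (Sum.elim
    (fun x => Sum.elim (fun k : κ × κ => ⁅y x.1 k.1, y x.1 k.2⁆) (fun k => y x.1 k ^ p) x.2)
    (fun x => (FreeGroup.lift (y (l1 x.1)) (s (ofAdd (i1 x.1 (bE x.2)))))⁻¹ *
      FreeGroup.lift (y (l2 x.1)) (s (ofAdd (i2 x.1 (bE x.2))))))
    (fun k => (FreeGroup.of k)⁻¹ * z k)
  let e := Fintype.equivFin ((Ln × (κ × κ ⊕ κ) ⊕ I × μ) ⊕ Fin d)
  let mk : FreeGroup (Fin d) →* PresentedGroup (Set.range (rel ∘ e.symm)) := PresentedGroup.mk _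
  have hmk : ∀ t, mk (rel t) = 1 := fun t =>
    PresentedGroup.one_of_mem ⟨e t, by rw [Function.comp_apply, e.symm_apply_apply]⟩
  refine ⟨_, rel ∘ e.symm, by simp, fun i => ?_, ?_⟩
  · rw [Function.comp_apply]
    generalize e.symm i = t
    rcases t with (⟨l, k | k⟩ | ⟨f, c⟩) | k
    · exact comm_mem_Za (y l k.1) (y l k.2)
    · exact pow_mem_Za (y l k) (Fact.out : p.Prime).one_lt
    · refine ker_le_Za bA (?_ : π _ = 1)
      simp only [rel, Sum.elim_inl, Sum.elim_inr]
      rw [map_mul, map_inv, hπ, hπ, inv_mul_eq_one]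
      simp only [πU, hsec, toAdd_ofAdd, hj]
    · refine ker_le_Za bA (?_ : π _ = 1)
      simp only [rel, Sum.elim_inr]
      rw [map_mul, map_inv, hz, inv_mul_eq_one]
      exact FreeGroup.lift_apply_of
  choose θ hθ using fun l => exists_hom_basis bU (fun k => mk (y l k))
    (fun k k' => by
      rw [← commutatorElement_eq_one_iff_commute, ← map_commutatorElement]
      exact hmk (.inl (.inl (l, .inl (k, k')))))
    (fun k => by rw [← map_pow]; exact hmk (.inl (.inl (l, .inr k))))
  have hθ' : ∀ l w, mk (FreeGroup.lift (y l) w) = θ l (πU w) := fun l w => by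
    have : mk.comp (FreeGroup.lift (y l)) = (θ l).comp πU := by
      ext k
      rw [MonoidHom.comp_apply, MonoidHom.comp_apply, FreeGroup.lift_apply_of,
        FreeGroup.lift_apply_of, hθ]
    exact DFunLike.congr_fun this w
  refine ⟨θ, fun f c => ?_, fun Z hZ g => ?_⟩
  · refine hom_ext_basis bE (f := (θ (l1 f)).comp (AddMonoidHom.toMultiplicative (i1 f)))
      (g := (θ (l2 f)).comp (AddMonoidHom.toMultiplicative (i2 f))) (fun k => ?_) c
    have := hmk (.inl (.inr (f, k)))
    simp only [rel, Sum.elim_inl, Sum.elim_inr] at this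
    rw [map_mul, map_inv, hθ', hθ', inv_mul_eq_one] at this
    simp only [πU, hsec] at this
    exact this
  · have hYZ : Y ≤ Z.comap mk := iSup_le fun l => by
      rintro _ ⟨w, rfl⟩
      rw [Subgroup.mem_comap, hθ']
      exact hZ _ _
    refine PresentedGroup.generated_by _ Z (fun k => ?_) g
    have := hmk (.inr k)
    simp only [rel, Sum.elim_inr] at this
    rw [map_mul, map_inv, inv_mul_eq_one] at this
    have h2 : mk (z k) ∈ Z := hYZ (hzY k)
    rw [← this] at h2
    exact h2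

end Pool.Agent.MP_ab7c65_al.H52T
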