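import Pool.Agent.MP_ab7c65_al.H52T.Fix
import Pool.Agent.MP_ab7c65_al.H52T.Pres

/-!
The group of the tensor power of a Reed-Solomon code.
-/

namespace Pool.Agent.MP_ab7c65_al.H52T

open Finset Multiplicative Pool.Agent.MP_ab7c65_al.PF

lemma vdm_span {K : Type} [Field K] {r : ℕ} (J : Finset K) (hJ : J.card = r + 1)
    (x : Fin (r + 1) → K) :
    ∃ c : K → K, x = ∑ t ∈ J, c t • fun s : Fin (r + 1) => t ^ (s : ℕ) := by
  classical
  let q := J.equivFinOfCardEq hJ
  let v : Fin (r + 1) → K := fun i => (q.symm i : K)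
  have hv : Function.Injective v := Subtype.val_injective.comp q.symm.injective
  have hu : IsUnit (Matrix.vandermonde v) :=
    (Matrix.isUnit_iff_isUnit_det _).mpr (Matrix.det_vandermonde_ne_zero_iff.mpr hv).isUnit
  obtain ⟨c, hc⟩ := Matrix.vecMul_surjective_iff_isUnit.mpr hu x
  refine ⟨fun t => if h : t ∈ J then c (q ⟨t, h⟩) else 0, ?_⟩
  rw [← Finset.sum_coe_sort J, ← q.symm.sum_comp, ← hc]
  ext s
  rw [Finset.sum_apply]
  simp [Matrix.vecMul, dotProduct, Matrix.vandermonde_apply, v]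

theorem exists_group (p : ℕ) [Fact p.Prime] (K : Type) [Field K] [Fintype K] [Algebra (ZMod p) K]
    {e : ℕ} (bK : Module.Basis (Fin e) (ZMod p) K) (n r : ℕ) (hr : (n + 2) * r < Fintype.card K) :
    ∃ (N : ℕ) (rels : Fin N → FreeGroup (Fin ((r + 1) ^ (n + 1) * e))),
      N = (n + 1) * Fintype.card K ^ n * ((r + 1) * e * ((r + 1) * e) + (r + 1) * e) +
        (n + 1) * Fintype.card K ^ (n + 1) * e + (r + 1) ^ (n + 1) * e ∧
      (∀ i, rels i ∈ Za p _ 1) ∧
      ∀ (V : Type) [NormedAddCommGroup V] [InnerProductSpace ℝ V] [CompleteSpace V]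
        (α : PresentedGroup (Set.range rels) →* (V ≃ᵃⁱ[ℝ] V)), ∃ v, ∀ g, α g v = v := by
  classical
  let L : K → Fin (r + 1) → K := fun t s => t ^ (s : ℕ)
  let j : Fin (n + 1) × (Fin n → K) → (Fin (r + 1) → K) →+ ((Fin (n + 1) → Fin (r + 1)) → K) :=
    fun l => AddMonoidHom.mk' (fun x k => x (k l.1) * ∏ i, l.2 i ^ (k (l.1.succAbove i) : ℕ))
      (fun x y => by ext k; exact add_mul _ _ _)
  let ι : K → K →+ (Fin (r + 1) → K) := fun t =>
    AddMonoidHom.mk' (fun c => c • L t) (fun x y => add_smul _ _ _)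
  have hev : ∀ (i : Fin (n + 1)) (a : Fin (n + 1) → K) (c : K), j (i, i.removeNth a) (ι (a i) c) =
      fun k => c * ∏ i', a i' ^ (k i' : ℕ) := fun i a c => by
    ext k
    rw [Fin.prod_univ_succAbove _ i, ← mul_assoc]
    rfl
  have hcard : Fintype.card (Σ _ : Fin (n + 1) → Fin (r + 1), Fin e) = (r + 1) ^ (n + 1) * e := by
    simp
  obtain ⟨N, rels, hN, hZ, θ, h1, h2⟩ := exists_pres (p := p)
    ((Pi.basis fun _ : Fin (n + 1) → Fin (r + 1) => bK).reindex (Fintype.equivFinOfCardEq hcard))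
    (Pi.basis fun _ : Fin (r + 1) => bK) bK j
    (fun f : Fin (n + 1) × (Fin (n + 1) → K) => (f.1, f.1.removeNth f.2))
    (fun f => (0, Fin.removeNth 0 f.2)) (fun f => ι (f.2 f.1)) (fun f => ι (f.2 0))
    (fun f c => by rw [hev, hev]) (fun Z hZ y => by
      obtain ⟨J, -, hJ⟩ := Finset.exists_subset_card_eq (s := (univ : Finset K)) (n := r + 1)
        (by rw [Finset.card_univ]; nlinarith)
      choose γ hγ using fun s : Fin (r + 1) => vdm_span J hJ (Pi.single s 1)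
      rw [← Finset.univ_sum_single y]
      refine sum_mem fun k _ => ?_
      have : Pi.single k (y k) = ∑ a ∈ Fintype.piFinset (fun _ : Fin (n + 1) => J),
          j (0, Fin.removeNth 0 a) (ι (a 0) (y k * ∏ i, γ (k i) (a i))) := by
        ext k'
        simp only [hev, Finset.sum_apply, mul_assoc, ← Finset.mul_sum, ← Finset.prod_mul_distrib]
        rw [← Finset.prod_univ_sum (fun _ : Fin (n + 1) => J)
          (fun i t => γ (k i) t * t ^ (k' i : ℕ))]
        have h3 : ∀ i, ∑ t ∈ J, γ (k i) t * t ^ (k' i : ℕ) = if k' i = k i then 1 else 0 :=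
          fun i => by
            have := congrFun (hγ (k i)) (k' i)
            rw [Finset.sum_apply, Pi.single_apply] at this
            exact this.symm
        simp only [h3, Finset.prod_boole, Pi.single_apply, funext_iff]
        simp
      rw [this]
      exact sum_mem fun a _ => hZ _ _)
  refine ⟨N, rels, by rw [hN]; simp, hZ, fun V _ _ _ α => ?_⟩
  obtain ⟨v, hv⟩ := fixed_point (m := n + 1) (r := r) (Nat.succ_pos n) hr L
    (fun J hJ x => vdm_span J hJ x) (fun i a => θ (i, i.removeNth a))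
    (fun i a t => by
      have : i.removeNth (a + Pi.single i t) = i.removeNth a := by
        ext i'
        simp [Fin.removeNth, Fin.succAbove_ne]
      rw [this])
    (fun i i' a c => (h1 (i, a) c).trans (h1 (i', a) c).symm) α
  let Z : Subgroup (PresentedGroup (Set.range rels)) :=
    { carrier := {g | α g v = v}
      one_mem' := by change α 1 v = v; rw [map_one]; rfl
      mul_mem' := fun {g h} hg hh => by
        change α (g * h) v = v
        rw [act_mul, show α h v = v from hh]; exact hg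
      inv_mem' := fun {g} hg => by
        change α g⁻¹ v = v
        nth_rewrite 1 [← show α g v = v from hg]
        rw [← act_mul, inv_mul_cancel, map_one]; rfl }
  refine ⟨v, h2 Z fun l x => ?_⟩
  have := hv l.1 (l.1.insertNth 0 l.2) x
  rw [Fin.removeNth_insertNth] at this
  exact this

theorem hom_trivial_of_fixed {G : Type} [Group G]
    (hG : ∀ (V : Type) [NormedAddCommGroup V] [InnerProductSpace ℝ V] [CompleteSpace V]
      (α : G →* (V ≃ᵃⁱ[ℝ] V)), ∃ v, ∀ g, α g v = v) (H : Subgroup G) [H.FiniteIndex]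
    (ψ : H →* Multiplicative ℤ) (h : H) : ψ h = 1 := by
  classical
  have := Fintype.ofFinite (G ⧸ H)
  have mem : ∀ (g : G) (x : G ⧸ H), (x.out)⁻¹ * g * (g⁻¹ • x).out ∈ H := by
    intro g x
    rw [mul_assoc, ← QuotientGroup.eq, QuotientGroup.out_eq']
    show x = g • ((g⁻¹ • x).out : G ⧸ H)
    rw [QuotientGroup.out_eq', smul_inv_smul]
  let β : G → EuclideanSpace ℝ (G ⧸ H) := fun g =>
    WithLp.toLp 2 (fun x => ((toAdd (ψ ⟨_, mem g x⟩) : ℤ) : ℝ))
  let a : G → (EuclideanSpace ℝ (G ⧸ H) ≃ᵃⁱ[ℝ] EuclideanSpace ℝ (G ⧸ H)) := fun g =>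
    (LinearIsometryEquiv.piLpCongrLeft 2 ℝ ℝ (MulAction.toPerm g)).toAffineIsometryEquiv.trans
      (AffineIsometryEquiv.constVAdd ℝ _ (β g))
  have ha : ∀ g v x, a g v x = ((toAdd (ψ ⟨_, mem g x⟩) : ℤ) : ℝ) + v (g⁻¹ • x) := fun g v x => by
    simp [a, β, LinearIsometryEquiv.piLpCongrLeft_apply, Equiv.piCongrLeft'_apply]
  obtain ⟨v, hv⟩ := hG _ (MonoidHom.mk' a fun g k => by
    ext v x
    have e : (⟨_, mem (g * k) x⟩ : H) = ⟨_, mem g x⟩ * ⟨_, mem k (g⁻¹ • x)⟩ := by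
      apply Subtype.ext
      simp only [Subgroup.coe_mul, mul_inv_rev, mul_smul]
      group
    change a (g * k) v x = a g (a k v) x
    rw [ha, ha, ha, e, map_mul, toAdd_mul, mul_inv_rev, mul_smul]
    push_cast
    ring)
  have e2 : (h : G)⁻¹ • ((1 : G) : G ⧸ H) = ((1 : G) : G ⧸ H) := by
    show (((h : G)⁻¹ * 1 : G) : G ⧸ H) = _
    rw [QuotientGroup.eq]; simp
  have e1 : a h v ((1 : G) : G ⧸ H) = v ((1 : G) : G ⧸ H) :=
    congrArg (fun v : EuclideanSpace ℝ (G ⧸ H) => v ((1 : G) : G ⧸ H)) (hv h)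
  rw [ha, congrArg v.ofLp e2] at e1
  have e4 : ψ ⟨_, mem h ((1 : G) : G ⧸ H)⟩ = 1 := by
    have : toAdd (ψ ⟨_, mem h ((1 : G) : G ⧸ H)⟩) = 0 := by
      have : ((toAdd (ψ ⟨_, mem h ((1 : G) : G ⧸ H)⟩) : ℤ) : ℝ) = 0 := by linarith
      exact_mod_cast this
    exact this
  have m0 : ((1 : G) : G ⧸ H).out ∈ H := by
    have := QuotientGroup.out_eq' ((1 : G) : G ⧸ H)
    rw [QuotientGroup.eq] at this
    simpa using this
  have e5 : (⟨_, mem h ((1 : G) : G ⧸ H)⟩ : H) = (⟨_, m0⟩ : H)⁻¹ * h * ⟨_, m0⟩ := by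
    apply Subtype.ext
    simp only [e2]
    rfl
  rw [e5, map_mul, map_mul, map_inv, mul_right_comm, inv_mul_cancel, one_mul] at e4
  exact e4

lemma numerics {n e q : ℕ} (hn : 1 ≤ n) (he : 5 ≤ e) (hq : 4 * (n + 2) ^ (n + 3) * e ≤ q) :
    ∃ r, (n + 2) * r < q ∧ ∀ N, N = (n + 1) * q ^ n * ((r + 1) * e * ((r + 1) * e) + (r + 1) * e) +
        (n + 1) * q ^ (n + 1) * e + (r + 1) ^ (n + 1) * e →
      N ≤ (r + 1) ^ (n + 1) * e * (r + 1) ^ 2 ∧ 4 * N < ((r + 1) ^ (n + 1) * e) ^ 2 := by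
  have hq0 : 0 < q := lt_of_lt_of_le (by positivity) hq
  refine ⟨(q - 1) / (n + 2), lt_of_le_of_lt (Nat.mul_div_le _ _) (by omega), fun N hN => ?_⟩
  have h1 : q ≤ (n + 2) * ((q - 1) / (n + 2) + 1) := by
    have := Nat.lt_mul_div_succ (q - 1) (show 0 < n + 2 by omega)
    omega
  have hD1 : 1 ≤ (q - 1) / (n + 2) + 1 := Nat.le_add_left _ _
  generalize (q - 1) / (n + 2) + 1 = D at *
  have h2 : 4 * (n + 2) ^ (n + 2) * e ≤ D := by
    refine Nat.le_of_mul_le_mul_left (le_trans (le_of_eq ?_) (hq.trans h1)) (show 0 < n + 2 by omega)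
    ring
  set C := (n + 2) ^ (n + 2) with hC
  have c1 : (n + 1) * q ^ n ≤ C * D ^ n := by
    calc (n + 1) * q ^ n ≤ (n + 2) ^ 2 * ((n + 2) * D) ^ n :=
          Nat.mul_le_mul (by nlinarith) (Nat.pow_le_pow_left h1 n)
      _ = C * D ^ n := by rw [hC, mul_pow]; ring
  have c2 : (n + 1) * q ^ (n + 1) ≤ C * D ^ (n + 1) := by
    calc (n + 1) * q ^ (n + 1) ≤ (n + 2) * ((n + 2) * D) ^ (n + 1) :=
          Nat.mul_le_mul (by omega) (Nat.pow_le_pow_left h1 _)
      _ = C * D ^ (n + 1) := by rw [hC, mul_pow]; ring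
  have c0 : 1 ≤ C := Nat.one_le_pow _ _ (by omega)
  have c3 : 1 ≤ D * e := Nat.mul_pos hD1 (by omega)
  have c4 : N ≤ 4 * C * e * (D ^ (n + 1) * e * D) := by
    have a1 : (n + 1) * q ^ n * (D * e * (D * e) + D * e) ≤ C * D ^ n * (2 * (D * e * (D * e))) :=
      Nat.mul_le_mul c1 (by nlinarith)
    have a2 : (n + 1) * q ^ (n + 1) * e ≤ C * D ^ (n + 1) * e * (D * e) :=
      (Nat.mul_le_mul_right e c2).trans (Nat.le_mul_of_pos_right _ c3)
    have a3 : D ^ (n + 1) * e ≤ C * (D ^ (n + 1) * e * (D * e)) :=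
      (Nat.le_mul_of_pos_right _ c3).trans (Nat.le_mul_of_pos_left _ c0)
    rw [hN]
    calc _ ≤ C * D ^ n * (2 * (D * e * (D * e))) + C * D ^ (n + 1) * e * (D * e) +
          C * (D ^ (n + 1) * e * (D * e)) := by omega
      _ = _ := by ring
  have c5 : N ≤ D ^ (n + 1) * e * D ^ 2 := by
    calc N ≤ D * (D ^ (n + 1) * e * D) := c4.trans (Nat.mul_le_mul_right _ h2)
      _ = _ := by ring
  refine ⟨c5, ?_⟩
  have c6 : D ^ 2 ≤ D ^ (n + 1) := Nat.pow_le_pow_right hD1 (by omega)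
  have c7 : 0 < D ^ (n + 1) * e * D ^ (n + 1) := by positivity
  calc 4 * N ≤ 4 * (D ^ (n + 1) * e * D ^ (n + 1)) :=
        Nat.mul_le_mul_left _ (c5.trans (Nat.mul_le_mul_left _ c6))
    _ < e * (D ^ (n + 1) * e * D ^ (n + 1)) := Nat.mul_lt_mul_of_pos_right (by omega) c7
    _ = _ := by ring

end Pool.Agent.MP_ab7c65_al.H52T
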