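import Pool.Agent.MP_ab7c65_al.H52T.Code

/-!
Expanders of bounded degree by the zig-zag product, for vector valued functions.
-/

namespace Pool.Agent.MP_ab7c65_al.H52T

open Finset

/-- Spectral expansion of a rotation map. -/
def ExpOk {N D : Type} [Fintype N] [Fintype D] (rot : N × D → N × D) (lam : ℝ) : Prop :=
  Function.Involutive rot ∧ ∀ (V : Type) [NormedAddCommGroup V] [InnerProductSpace ℝ V]
    (f : N → V), ∑ u, f u = 0 →
      ∑ u, ‖(Fintype.card D : ℝ)⁻¹ • ∑ i, f (rot (u, i)).1‖ ^ 2 ≤ lam ^ 2 * ∑ u, ‖f u‖ ^ 2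

section
variable {V : Type} [NormedAddCommGroup V] [InnerProductSpace ℝ V]
variable {N D A : Type} [Fintype N] [Fintype D] [Fintype A]

lemma exp_sum {rot : N × D → N × D} (h : Function.Involutive rot) (f : N → V)
    (hf : ∑ u, f u = 0) : ∑ u, (Fintype.card D : ℝ)⁻¹ • ∑ i, f (rot (u, i)).1 = 0 := by
  rw [← Finset.smul_sum, ← Fintype.sum_prod_type' (fun u i => f (rot (u, i)).1)]
  have := Equiv.sum_comp h.toPerm (fun x : N × D => f x.1)
  rw [Fintype.sum_prod_type (fun x : N × D => f x.1), Finset.sum_comm] at this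
  simp only [hf, Finset.sum_const_zero] at this
  exact smul_eq_zero_of_right _ this

lemma exp_mean_le [Nonempty A] (x : A → V) :
    (Fintype.card A : ℝ) * ‖(Fintype.card A : ℝ)⁻¹ • ∑ a, x a‖ ^ 2 ≤ ∑ a, ‖x a‖ ^ 2 := by
  have h0 : (0 : ℝ) < Fintype.card A := by exact_mod_cast Fintype.card_pos
  have h1 := norm_sum_le univ x
  have h2 := sq_sum_le_card_mul_sum_sq (s := univ) (f := fun a => ‖x a‖)
  rw [Finset.card_univ] at h2
  have h3 := (pow_le_pow_left₀ (norm_nonneg _) h1 2).trans h2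
  rw [norm_smul, mul_pow, Real.norm_eq_abs, sq_abs, ← mul_assoc,
    show (Fintype.card A : ℝ) * (Fintype.card A : ℝ)⁻¹ ^ 2 = (Fintype.card A : ℝ)⁻¹ by field_simp,
    inv_mul_le_iff₀ h0]
  exact h3

lemma exp_var_le [Nonempty A] (x : A → V) :
    ∑ a, ‖x a - (Fintype.card A : ℝ)⁻¹ • ∑ a, x a‖ ^ 2 ≤ ∑ a, ‖x a‖ ^ 2 := by
  have h0 : (Fintype.card A : ℝ) ≠ 0 := by exact_mod_cast Fintype.card_ne_zero
  set z := (Fintype.card A : ℝ)⁻¹ • ∑ a, x a with hz
  have e : ∑ a, x a = (Fintype.card A : ℝ) • z := by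
    rw [hz, smul_smul, mul_inv_cancel₀ h0, one_smul]
  simp only [norm_sub_sq_real]
  rw [Finset.sum_add_distrib, Finset.sum_sub_distrib, ← Finset.mul_sum, ← sum_inner, e,
    real_inner_smul_left, real_inner_self_eq_norm_sq, Finset.sum_const, Finset.card_univ,
    nsmul_eq_mul]
  have : 0 ≤ (Fintype.card A : ℝ) * ‖z‖ ^ 2 := by positivity
  linarith

/-- Averaging along a family of maps. -/
noncomputable def expPull (V : Type) [NormedAddCommGroup V] [InnerProductSpace ℝ V]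
    {X Y I : Type} [Fintype I] (φ : X → I → Y) : HH Y V →ₗ[ℝ] HH X V where
  toFun f := WithLp.toLp 2 fun x => (Fintype.card I : ℝ)⁻¹ • ∑ i, f (φ x i)
  map_add' f g := by ext x; simp [Finset.sum_add_distrib]
  map_smul' c f := by ext x; simp [← Finset.smul_sum, smul_comm c]

lemma expPull_apply {X Y I : Type} [Fintype I] (φ : X → I → Y) (f : HH Y V) (x : X) :
    expPull V φ f x = (Fintype.card I : ℝ)⁻¹ • ∑ i, f (φ x i) := rfl

end

lemma ExpOk.mono {N D : Type} [Fintype N] [Fintype D] {rot : N × D → N × D} {l l' : ℝ}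
    (h : ExpOk rot l) (h0 : 0 ≤ l) (hl : l ≤ l') : ExpOk rot l' :=
  ⟨h.1, fun V _ _ f hf => (h.2 V f hf).trans (mul_le_mul_of_nonneg_right
    (pow_le_pow_left₀ h0 hl 2) (Finset.sum_nonneg fun _ _ => sq_nonneg _))⟩

lemma ExpOk.reindex {N D D' : Type} [Fintype N] [Fintype D] [Fintype D'] {rot : N × D → N × D}
    {l : ℝ} (h : ExpOk rot l) (e : D' ≃ D) : ∃ rot' : N × D' → N × D', ExpOk rot' l := by
  refine ⟨fun x => ((rot (x.1, e x.2)).1, e.symm (rot (x.1, e x.2)).2), fun x => ?_,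
    fun V _ _ f hf => ?_⟩
  · simp only [e.apply_symm_apply, Prod.mk.eta, h.1 (x.1, e x.2), e.symm_apply_apply]
  · have := h.2 V f hf
    rw [Fintype.card_congr e]
    refine le_trans (le_of_eq (Finset.sum_congr rfl fun u _ => ?_)) this
    rw [← Equiv.sum_comp e (fun i => f (rot (u, i)).1)]

lemma ExpOk.sq {N D : Type} [Fintype N] [Fintype D] {rot : N × D → N × D}
    {l : ℝ} (h : ExpOk rot l) : ∃ rot' : N × (D × D) → N × (D × D), ExpOk rot' (l ^ 2) := by
  refine ⟨fun x => ((rot ((rot (x.1, x.2.1)).1, x.2.2)).1,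
    ((rot ((rot (x.1, x.2.1)).1, x.2.2)).2, (rot (x.1, x.2.1)).2)), fun x => ?_,
    fun V _ _ f hf => ?_⟩
  · simp only [Prod.mk.eta, h.1 ((rot (x.1, x.2.1)).1, x.2.2), h.1 (x.1, x.2.1)]
  · have h1 := h.2 V _ (exp_sum h.1 f hf)
    have h2 := h.2 V f hf
    have h3 := h1.trans (mul_le_mul_of_nonneg_left h2 (sq_nonneg l))
    simp only [← Finset.smul_sum, smul_smul] at h3
    simp only [Fintype.sum_prod_type, Fintype.card_prod, Nat.cast_mul, mul_inv]
    refine h3.trans (le_of_eq ?_)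
    ring

lemma ExpOk.zigzag {N A D : Type} [Fintype N] [Fintype A] [Fintype D] [Nonempty A] [Nonempty D]
    {g : N × A → N × A} {h : A × D → A × D} {l m : ℝ} (hg : ExpOk g l) (hh : ExpOk h m)
    (hl : 0 ≤ l) (hm : 0 ≤ m) :
    ∃ rot : (N × A) × (D × D) → (N × A) × (D × D), ExpOk rot (l + 2 * m + m ^ 2) := by
  refine ⟨fun x => (((g (x.1.1, (h (x.1.2, x.2.1)).1)).1,
      (h ((g (x.1.1, (h (x.1.2, x.2.1)).1)).2, x.2.2)).1),
    ((h ((g (x.1.1, (h (x.1.2, x.2.1)).1)).2, x.2.2)).2, (h (x.1.2, x.2.1)).2)), fun x => ?_,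
    fun V _ _ f hf => ?_⟩
  · simp only [Prod.mk.eta, hh.1 ((g (x.1.1, (h (x.1.2, x.2.1)).1)).2, x.2.2),
      hg.1 (x.1.1, (h (x.1.2, x.2.1)).1), hh.1 (x.1.2, x.2.1)]
  have hA : (Fintype.card A : ℝ) ≠ 0 := by exact_mod_cast Fintype.card_ne_zero
  have hD : (Fintype.card D : ℝ) ≠ 0 := by exact_mod_cast Fintype.card_ne_zero
  let H := expPull V (fun (x : N × A) (i : D) => (x.1, (h (x.2, i)).1))
  let J := expPull V (fun (x : N × A) (b : A) => (x.1, b))
  let P := expPull V (fun (x : N × A) (_ : Unit) => g x)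
  have hPa : ∀ F x, P F x = F (g x) := fun F x => by simp [P, expPull_apply]
  have hP : ∀ F, ‖P F‖ = ‖F‖ := fun F => by
    rw [← sq_eq_sq₀ (norm_nonneg _) (norm_nonneg _), PiLp.norm_sq_eq_of_L2, PiLp.norm_sq_eq_of_L2]
    simp only [hPa]
    exact Equiv.sum_comp hg.1.toPerm (fun x => ‖F x‖ ^ 2)
  have hJ2 : ∀ F : HH (N × A) V, (Fintype.card A : ℝ) *
      ∑ v, ‖(Fintype.card A : ℝ)⁻¹ • ∑ b, F (v, b)‖ ^ 2 ≤ ‖F‖ ^ 2 := fun F => by
    rw [PiLp.norm_sq_eq_of_L2, Fintype.sum_prod_type, Finset.mul_sum]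
    exact Finset.sum_le_sum fun v _ => exp_mean_le _
  have hJ : ∀ F, ‖J F‖ ≤ ‖F‖ := fun F => by
    refine abs_le_of_sq_le_sq' (le_trans (le_of_eq ?_) (hJ2 F)) (norm_nonneg _) |>.2
    rw [PiLp.norm_sq_eq_of_L2, Fintype.sum_prod_type, Finset.mul_sum]
    simp only [J, expPull_apply, Finset.sum_const, Finset.card_univ, nsmul_eq_mul]
  have hE : ∀ F, ‖H F - J F‖ ≤ m * ‖F‖ := fun F => by
    refine abs_le_of_sq_le_sq' ?_ (by positivity) |>.2
    rw [mul_pow, PiLp.norm_sq_eq_of_L2, PiLp.norm_sq_eq_of_L2, Fintype.sum_prod_type,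
      Fintype.sum_prod_type, Finset.mul_sum]
    refine Finset.sum_le_sum fun v _ => ?_
    have h1 := hh.2 V (fun a => F (v, a) - (Fintype.card A : ℝ)⁻¹ • ∑ b, F (v, b)) (by
      rw [Finset.sum_sub_distrib, Finset.sum_const, Finset.card_univ, ← Nat.cast_smul_eq_nsmul ℝ,
        smul_smul, mul_inv_cancel₀ hA, one_smul, sub_self])
    refine le_trans (le_of_eq ?_) (h1.trans
      (mul_le_mul_of_nonneg_left (exp_var_le fun a => F (v, a)) (sq_nonneg m)))
    refine Finset.sum_congr rfl fun a _ => ?_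
    rw [PiLp.sub_apply, Finset.sum_sub_distrib, Finset.sum_const, Finset.card_univ,
      ← Nat.cast_smul_eq_nsmul ℝ, smul_sub, smul_smul, inv_mul_cancel₀ hD, one_smul]
    rfl
  let F : HH (N × A) V := WithLp.toLp 2 f
  have hG : ‖J (P (J F))‖ ≤ l * ‖F‖ := by
    refine abs_le_of_sq_le_sq' ?_ (by positivity) |>.2
    have h1 := hg.2 V (fun v => (Fintype.card A : ℝ)⁻¹ • ∑ b, F (v, b)) (by
      rw [← Finset.smul_sum, ← Fintype.sum_prod_type' (fun v b => F (v, b))]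
      exact smul_eq_zero_of_right _ hf)
    have h2 := mul_le_mul_of_nonneg_left h1 (Nat.cast_nonneg (α := ℝ) (Fintype.card A))
    rw [mul_left_comm] at h2
    rw [mul_pow]
    refine le_trans (le_of_eq ?_) (h2.trans (mul_le_mul_of_nonneg_left (hJ2 F) (sq_nonneg l)))
    rw [PiLp.norm_sq_eq_of_L2, Fintype.sum_prod_type, Finset.mul_sum]
    simp only [J, expPull_apply, hPa, Finset.sum_const, Finset.card_univ, nsmul_eq_mul]
  have hZ : ‖H (P (H F))‖ ≤ (l + 2 * m + m ^ 2) * ‖F‖ := by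
    have e : H (P (H F)) = J (P (J F)) + J (P (H F - J F)) + (H (P (H F)) - J (P (H F))) := by
      rw [map_sub, map_sub]; abel
    have a1 := (hJ (P (H F - J F))).trans ((hP _).trans_le (hE F))
    have a2 := hE (P (H F))
    have a3 : ‖H F‖ ≤ ‖F‖ + m * ‖F‖ := by
      have := norm_add_le (J F) (H F - J F)
      rw [add_sub_cancel] at this
      linarith [hJ F, hE F]
    rw [hP] at a2
    have a4 := mul_le_mul_of_nonneg_left a3 hm
    rw [e]
    refine (norm_add₃_le).trans ?_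
    linarith
  have h5 := pow_le_pow_left₀ (norm_nonneg _) hZ 2
  rw [mul_pow, PiLp.norm_sq_eq_of_L2, PiLp.norm_sq_eq_of_L2] at h5
  refine le_trans (le_of_eq (Finset.sum_congr rfl fun x _ => ?_)) h5
  simp only [H, expPull_apply, hPa, ← Finset.smul_sum, smul_smul, Fintype.sum_prod_type,
    Fintype.card_prod, Nat.cast_mul, mul_inv]
  rfl

lemma exp_base (K : Type) [Field K] [Fintype K] (r : ℕ) :
    ∃ rot : (Fin (r + 1) → K) × (K × K) → (Fin (r + 1) → K) × (K × K),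
      ExpOk rot (r / Fintype.card K) := by
  classical
  let L : K → Fin (r + 1) → K := fun t s => t ^ (s : ℕ)
  refine ⟨fun x => (x.1 + x.2.2 • L x.2.1, (x.2.1, -x.2.2)), fun x => by simp,
    fun V _ _ f hf => ?_⟩
  have hq : (0 : ℝ) < Fintype.card K := by exact_mod_cast Fintype.card_pos
  have hr := tr_rep (V := V) (A := Fin (r + 1) → K)
  have z : ∀ F : HH (Fin (r + 1) → K) V, ∑ a, F a = 0 →
      av (fun a : Fin (r + 1) → K => tr V a) F = 0 := fun F hF => by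
    ext a
    have := Equiv.sum_comp (Equiv.addLeft a) (fun b => F b)
    rw [hF] at this
    rw [av_pi (fun b => b)]
    exact smul_eq_zero_of_right _ this
  let F : HH (Fin (r + 1) → K) V := WithLp.toLp 2 f
  let u : K → HH (Fin (r + 1) → K) V := fun t => av (fun c : K => tr V (c • L t)) F
  have h1 := sum_av_le (K := K) hr L r (fun J hJ x => vdm_span J hJ x) F (fun x hx => by
    rw [← av_of_fixed hx, ← hr.isProj.sym, z F hf, inner_zero_left])
  have h2 := local_le (K := K) hr L r (fun J hJ x => vdm_span J hJ x) u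
    (fun t c => (hr.line (L t)).rho_av c F)
  have h3 : av (fun a : Fin (r + 1) → K => tr V a) (∑ t, u t) = 0 := by
    rw [map_sum]
    refine Finset.sum_eq_zero fun t _ => ?_
    rw [av_comm _ (fun c : K => tr V (c • L t))
      (fun a b y => by rw [← hr.add, ← hr.add, add_comm a]), z F hf, map_zero]
  rw [h3, sub_zero] at h2
  have h4 := h2.trans (mul_le_mul_of_nonneg_left h1 (Nat.cast_nonneg r))
  rw [PiLp.norm_sq_eq_of_L2, PiLp.norm_sq_eq_of_L2] at h4
  have h5 : ∀ a, ‖(Fintype.card (K × K) : ℝ)⁻¹ • ∑ i : K × K, f (a + i.2 • L i.1)‖ ^ 2 =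
      ((Fintype.card K : ℝ)⁻¹) ^ 2 * ‖(∑ t, u t) a‖ ^ 2 := fun a => by
    rw [← sq_abs (Fintype.card K : ℝ)⁻¹, ← Real.norm_eq_abs, ← mul_pow, ← norm_smul,
      WithLp.ofLp_sum, Finset.sum_apply]
    simp only [u, av_pi, ← Finset.smul_sum, smul_smul, Fintype.sum_prod_type, Fintype.card_prod,
      Nat.cast_mul, mul_inv]
    rfl
  simp only [h5]
  rw [← Finset.mul_sum]
  refine (mul_le_mul_of_nonneg_left h4 (sq_nonneg _)).trans (le_of_eq ?_)
  change _ = _ * ∑ a, ‖F a‖ ^ 2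
  field_simp

theorem exists_expander (lam : ℝ) (h : 0 < lam) : ∃ k : ℕ, 0 < k ∧ ∀ n0 : ℕ,
    ∃ (N : Type) (_ : Fintype N) (rot : N × Fin k → N × Fin k), n0 ≤ Fintype.card N ∧
      Function.Involutive rot ∧ ∀ (V : Type) [NormedAddCommGroup V] [InnerProductSpace ℝ V]
        (f : N → V), ∑ u, f u = 0 →
          ∑ u, ‖∑ i, f (rot (u, i)).1‖ ^ 2 ≤ (lam * k) ^ 2 * ∑ u, ‖f u‖ ^ 2 := by
  obtain ⟨μ, h0, h1, h2⟩ : ∃ μ : ℝ, 0 < μ ∧ μ ≤ lam ∧ μ ≤ 1 / 2 :=
    ⟨min lam (1 / 2), by positivity, min_le_left _ _, min_le_right _ _⟩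
  obtain ⟨n, hn⟩ := exists_nat_ge (42 / μ)
  obtain ⟨p, hpn, hp⟩ := Nat.exists_infinite_primes n
  have : Fact p.Prime := ⟨hp⟩
  have hp0 : (0 : ℝ) < p := by exact_mod_cast hp.pos
  obtain ⟨b, hb⟩ := exp_base (ZMod p) 7
  replace hb : ExpOk b (μ / 6) := hb.mono (by positivity) (by
    have : (n : ℝ) ≤ p := by exact_mod_cast hpn
    rw [div_le_iff₀ h0] at hn
    rw [ZMod.card, div_le_iff₀ hp0]
    push_cast
    nlinarith)
  have key : ∀ t : ℕ, ∃ (N : Type) (_ : Fintype N) (rot : N × ((ZMod p × ZMod p) ×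
      (ZMod p × ZMod p)) → N × ((ZMod p × ZMod p) × (ZMod p × ZMod p))),
      t + 1 ≤ Fintype.card N ∧ ExpOk rot μ := by
    intro t
    induction t with
    | zero =>
      obtain ⟨g, hg⟩ := hb.sq
      exact ⟨_, inferInstance, g, Fintype.card_pos, hg.mono (by positivity) (by nlinarith)⟩
    | succ t ih =>
      obtain ⟨N, _, g, hN, hg⟩ := ih
      obtain ⟨g2, hg2⟩ := hg.sq
      obtain ⟨g3, hg3⟩ := hg2.reindex (D' := Fin (7 + 1) → ZMod p)
        (Fintype.equivOfCardEq (by simp [ZMod.card]; ring))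
      obtain ⟨g4, hg4⟩ := hg3.zigzag hb (by positivity) (by positivity)
      refine ⟨_, inferInstance, g4, ?_, hg4.mono (by positivity) (by nlinarith)⟩
      have : 2 ≤ Fintype.card (Fin (7 + 1) → ZMod p) := Fintype.one_lt_card
      rw [Fintype.card_prod]
      nlinarith
  refine ⟨Fintype.card ((ZMod p × ZMod p) × (ZMod p × ZMod p)), Fintype.card_pos, fun n0 => ?_⟩
  obtain ⟨N, _, g, hN, hg⟩ := key n0
  obtain ⟨g2, hg2⟩ := (hg.mono h0.le h1).reindex (Fintype.equivFin _).symm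
  refine ⟨N, inferInstance, g2, by omega, hg2.1, fun V _ _ f hf => ?_⟩
  have h3 := hg2.2 V f hf
  rw [Fintype.card_fin] at h3
  have hk : (0 : ℝ) < Fintype.card ((ZMod p × ZMod p) × (ZMod p × ZMod p)) := by
    exact_mod_cast Fintype.card_pos
  generalize Fintype.card ((ZMod p × ZMod p) × (ZMod p × ZMod p)) = k at *
  simp only [norm_smul, mul_pow, Real.norm_eq_abs, sq_abs, ← Finset.mul_sum] at h3
  rw [inv_pow, inv_mul_le_iff₀ (by positivity)] at h3
  rw [mul_pow]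
  linarith

end Pool.Agent.MP_ab7c65_al.H52T
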