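import Pool.Agent.MP_ab7c65_al.H52T.Proj

/-!
The fixed point theorem for groups generated by line groups of a tensor code.
-/

namespace Pool.Agent.MP_ab7c65_al.H52T

open Finset Multiplicative

variable {V : Type*} [NormedAddCommGroup V] [InnerProductSpace ℝ V]

section aff
variable {G : Type*} [Group G] (α : G →* (V ≃ᵃⁱ[ℝ] V))

/-- The linear part of an affine action. -/
noncomputable def lin (g : G) : V →ₗ[ℝ] V := (α g).linearIsometryEquiv.toLinearEquiv.toLinearMap

lemma lin_sub (g : G) (v w : V) : lin α g (v - w) = α g v - α g w := (α g).map_vsub v w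

lemma lin_eq (g : G) (v : V) : lin α g v = α g v - α g 0 := by rw [← lin_sub, sub_zero]

lemma act_mul (g h : G) (v : V) : α (g * h) v = α g (α h v) := by rw [map_mul]; rfl

lemma lin_rep {U : Type*} [AddCommGroup U] (θ : Multiplicative U →* G) :
    IsRep (fun x : U => lin α (θ (ofAdd x))) := by
  refine ⟨fun a b v => ?_, fun v => ?_, fun a x y => (α _).linearIsometryEquiv.inner_map_map x y⟩
  · rw [ofAdd_add, map_mul, lin_eq, act_mul, act_mul, ← lin_sub, ← lin_eq]
  · rw [ofAdd_zero, map_one, lin_eq, map_one]; simp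

lemma act_mean {A : Type*} [Fintype A] [Nonempty A] (g : G) (x : A → V) :
    α g ((Fintype.card A : ℝ)⁻¹ • ∑ a, x a) = (Fintype.card A : ℝ)⁻¹ • ∑ a, α g (x a) := by
  have : (Fintype.card A : ℝ) ≠ 0 := by exact_mod_cast Fintype.card_ne_zero
  rw [← sub_left_inj (a := α g 0), ← lin_eq, map_smul, map_sum]
  simp only [lin_eq]
  rw [Finset.sum_sub_distrib, Finset.sum_const, Finset.card_univ, ← Nat.cast_smul_eq_nsmul ℝ,
    smul_sub, smul_smul, inv_mul_cancel₀ this, one_smul]

lemma exists_fixed {U : Type*} [AddCommGroup U] [Fintype U] (θ : Multiplicative U →* G) :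
    ∃ v, ∀ x, α (θ x) v = v := by
  refine ⟨(Fintype.card U : ℝ)⁻¹ • ∑ y : U, α (θ (ofAdd y)) 0, fun x => ?_⟩
  rw [act_mean]
  congr 1
  refine Fintype.sum_equiv (Equiv.addLeft (toAdd x)) _ _ (fun y => ?_)
  rw [← act_mul, ← map_mul]; rfl

end aff

/-- Square summable vector valued functions. -/
abbrev HH (A V : Type*) : Type _ := PiLp 2 (fun _ : A => V)

section trans
variable {A : Type*} [AddCommGroup A] [Fintype A]

/-- Translation of vector valued functions. -/
noncomputable def tr (V : Type*) [NormedAddCommGroup V] [InnerProductSpace ℝ V] (x : A) :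
    PiLp 2 (fun _ : A => V) →ₗ[ℝ] PiLp 2 (fun _ : A => V) where
  toFun F := WithLp.toLp 2 fun a => F (a + x)
  map_add' _ _ := rfl
  map_smul' _ _ := rfl

omit [Fintype A] in
lemma tr_apply (x : A) (F : PiLp 2 (fun _ : A => V)) (a : A) : tr V x F a = F (a + x) := rfl

lemma tr_rep : IsRep (tr V : A → _) := by
  refine ⟨fun a b F => ?_, fun F => ?_, fun a F F' => ?_⟩
  · ext c; simp only [tr_apply, add_assoc]
  · ext c; simp only [tr_apply, add_zero]
  · rw [PiLp.inner_apply, PiLp.inner_apply]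
    exact Fintype.sum_equiv (Equiv.addRight a) _ _ (fun c => rfl)

lemma av_pi {B : Type*} [Fintype B] (φ : B → A) (F : PiLp 2 (fun _ : A => V)) (a : A) :
    av (fun b => tr V (φ b)) F a = (Fintype.card B : ℝ)⁻¹ • ∑ b, F (a + φ b) := by
  rw [av_apply, PiLp.smul_apply, WithLp.ofLp_sum, Finset.sum_apply]
  rfl

end trans

theorem fixed_point {K U : Type*} [Field K] [Fintype K] [AddCommGroup U] [Module K U] [Fintype U]
    {m r : ℕ} (hm : 0 < m) (hr : (m + 1) * r < Fintype.card K) (L : K → U)
    (hL : ∀ J : Finset K, J.card = r + 1 → ∀ x : U, ∃ c : K → K, x = ∑ t ∈ J, c t • L t)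
    {G : Type*} [Group G] (θ : Fin m → (Fin m → K) → (Multiplicative U →* G))
    (h1 : ∀ i a t, θ i (a + Pi.single i t) = θ i a)
    (h2 : ∀ i j a (c : K), θ i a (ofAdd (c • L (a i))) = θ j a (ofAdd (c • L (a j))))
    [CompleteSpace V] (α : G →* (V ≃ᵃⁱ[ℝ] V)) : ∃ v, ∀ i a x, α (θ i a x) v = v := by
  classical
  have hm' : (m : ℝ) ≠ 0 := by exact_mod_cast hm.ne'
  have hq : (0 : ℝ) < Fintype.card K := by exact_mod_cast Fintype.card_pos
  have : Nonempty (Fin m) := ⟨⟨0, hm⟩⟩
  let e : Fin m → Fin m → K := fun i => Pi.single i 1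
  have he : ∀ i (c : K), c • e i = Pi.single i c := fun i c => by
    simp only [e, ← Pi.single_smul, smul_eq_mul, mul_one]
  let Q : Fin m → HH (Fin m → K) V →ₗ[ℝ] HH (Fin m → K) V := fun i => av (fun c : K => tr V (c • e i))
  have hQ : ∀ i, IsProj (Q i) := fun i => (tr_rep.line (e i)).isProj
  have hQf : ∀ i (F : HH (Fin m → K) V), (∀ a t, F (a + Pi.single i t) = F a) → Q i F = F := fun i F hF =>
    av_of_fixed fun c => by ext a; rw [tr_apply, he, hF]
  have hQi : ∀ i (F : HH (Fin m → K) V) a t, Q i F (a + Pi.single i t) = Q i F a := fun i F a t => by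
    have := (tr_rep.line (K := K) (e i)).rho_av t F
    rw [← he, ← tr_apply]
    exact congrArg (fun Y : HH (Fin m → K) V => Y a) this
  let S : Set (Fin m → HH (Fin m → K) V) := {F | (∀ i a x, α (θ i a x) (F i a) = F i a) ∧
    ∀ i a t, F i (a + Pi.single i t) = F i a}
  let E : (Fin m → HH (Fin m → K) V) → ℝ := fun F => ∑ i, ‖F i - (m : ℝ)⁻¹ • ∑ j, F j‖ ^ 2
  have hcont : ∀ i a, Continuous fun F : Fin m → HH (Fin m → K) V => F i a := fun i a => by fun_prop
  have hS : IsClosed S := by
    simp only [S, Set.ofPred_and, Set.ofPred_forall]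
    exact (isClosed_iInter fun i => isClosed_iInter fun a => isClosed_iInter fun x =>
      isClosed_eq ((α _).continuous.comp (hcont i a)) (hcont i a)).inter
      (isClosed_iInter fun i => isClosed_iInter fun a => isClosed_iInter fun x =>
        isClosed_eq (hcont i _) (hcont i a))
  have hne : S.Nonempty := by
    choose f hf using fun φ : Multiplicative U →* G => exists_fixed α φ
    exact ⟨fun i => WithLp.toLp 2 fun a => f (θ i a), fun i a x => hf _ x,
      fun i a t => congrArg f (h1 i a t)⟩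
  have hκ : (r : ℝ) / Fintype.card K < 1 / (m + 1) := by
    rw [div_lt_div_iff₀ hq (by positivity)]
    have : (((m + 1) * r : ℕ) : ℝ) < Fintype.card K := by exact_mod_cast hr
    push_cast at this; linarith
  have hκ0 : 1 / ((m : ℝ) + 1) ≤ 1 := by
    rw [div_le_one (by positivity)]; linarith [Nat.cast_nonneg (α := ℝ) m]
  obtain ⟨F, hF, hE⟩ := descent S hS hne E (by simp only [E]; fun_prop)
    (fun F => Finset.sum_nonneg fun i _ => sq_nonneg _)
    (κ := 1 - 1 / (m + 1) + r / Fintype.card K) (add_nonneg (by linarith) (by positivity)) (by linarith) (by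
    intro F hF
    set z : HH (Fin m → K) V := (m : ℝ)⁻¹ • ∑ j, F j with hz
    have hza : ∀ a, z a = (Fintype.card (Fin m) : ℝ)⁻¹ • ∑ j, F j a := fun a => by
      rw [hz, PiLp.smul_apply, WithLp.ofLp_sum, Finset.sum_apply, Fintype.card_fin]
    let w : Fin m → HH (Fin m → K) V := fun i => WithLp.toLp 2 fun a =>
      av (fun x : U => lin α (θ i a (ofAdd x))) (Q i (F i - z) a)
    have hwa : ∀ i a, w i a = av (fun x : U => lin α (θ i a (ofAdd x))) (Q i (F i - z) a) :=
      fun i a => rfl
    clear_value w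
    have hw : ∀ i a t, w i (a + Pi.single i t) = w i a := fun i a t => by
      rw [hwa, hwa, h1, hQi]
    have i1 : ∀ i, inner ℝ (Q i (F i - z)) (w i) = ‖w i‖ ^ 2 := fun i => by
      rw [PiLp.inner_apply, PiLp.norm_sq_eq_of_L2]
      refine Finset.sum_congr rfl fun a _ => ?_
      rw [real_inner_comm, hwa]
      exact (lin_rep α (θ i a)).isProj.inner_self _
    have i2 : ∀ i, ‖F i - z - w i‖ ^ 2 = ‖F i - z‖ ^ 2 - ‖w i‖ ^ 2 := fun i => by
      rw [norm_sub_sq_real, ← hQf i (w i) (hw i), ← (hQ i).sym, hQf i (w i) (hw i), i1]; ring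
    have i3 : ∀ i, ‖Q i (F i - z) - w i‖ ^ 2 = ‖Q i (F i - z)‖ ^ 2 - ‖w i‖ ^ 2 := fun i => by
      rw [norm_sub_sq_real, i1]; ring
    have i4 : ∀ i, ‖Q i (F i - z) - w i‖ ^ 2 ≤ r / Fintype.card K * ‖F i - z‖ ^ 2 := fun i => by
      have loc : ∀ a, ‖(Q i (F i - z) - w i) a‖ ^ 2 ≤
          ((Fintype.card K : ℝ)⁻¹) ^ 2 * (r * ∑ t : K, ‖(F i - z) (a + t • e i)‖ ^ 2) := by
        intro a
        have hl := local_le (lin_rep α (θ i a)) (fun t : K => L (a i + t)) r (fun J hJ x => by
          obtain ⟨c, hc⟩ := hL (J.map (Equiv.addLeft (a i)).toEmbedding) (by simpa using hJ) x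
          exact ⟨fun t => c (a i + t), by rw [hc, Finset.sum_map]; rfl⟩)
          (fun t : K => (F i - z) (a + t • e i)) (fun t c => by
            have ea : a i + t = (a + Pi.single i t : Fin m → K) i := by simp
            have fx : ∀ j, α (θ i a (ofAdd (c • L (a i + t)))) (F j (a + Pi.single i t)) =
                F j (a + Pi.single i t) := fun j => by
              rw [ea, ← h1 i a t, h2 i j]; exact hF.1 j _ _
            rw [he, PiLp.sub_apply, lin_sub, fx, hza, act_mean]
            simp only [fx])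
        have ee : (Q i (F i - z) - w i) a = (Fintype.card K : ℝ)⁻¹ •
            (∑ t : K, (F i - z) (a + t • e i) - av (fun x : U => lin α (θ i a (ofAdd x)))
              (∑ t : K, (F i - z) (a + t • e i))) := by
          rw [PiLp.sub_apply, hwa, smul_sub, ← map_smul, ← av_pi]
        rw [ee, norm_smul, mul_pow, Real.norm_eq_abs, sq_abs]
        exact mul_le_mul_of_nonneg_left hl (sq_nonneg _)
      rw [PiLp.norm_sq_eq_of_L2]
      refine (Finset.sum_le_sum fun a _ => loc a).trans (le_of_eq ?_)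
      rw [← Finset.mul_sum, ← Finset.mul_sum, Finset.sum_comm]
      have : ∀ t : K, ∑ a : Fin m → K, ‖(F i - z) (a + t • e i)‖ ^ 2 = ‖F i - z‖ ^ 2 := fun t => by
        rw [PiLp.norm_sq_eq_of_L2]
        exact Fintype.sum_equiv (Equiv.addRight (t • e i)) _ _ (fun c => rfl)
      rw [Finset.sum_congr rfl (fun t _ => this t), Finset.sum_const, Finset.card_univ,
        nsmul_eq_mul]
      field_simp
    have sp : E F ≤ (m + 1) * ∑ i, ‖Q i (F i - z)‖ ^ 2 := by
      obtain ⟨c, hc, hc2⟩ : ∃ c : HH (Fin m → K) V, (∀ i, Q i c = c) ∧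
          ∀ x, (∀ a : Fin m → K, tr V a x = x) → inner ℝ (z - c) x = 0 := by
        have hr := tr_rep (V := V) (A := Fin m → K)
        refine ⟨av (fun a : Fin m → K => tr V a) z, fun i =>
          av_of_fixed (ρ := fun c : K => tr V (c • e i)) fun c => hr.rho_av (c • e i) z,
          fun x hx => ?_⟩
        rw [inner_sub_left, hr.isProj.sym, av_of_fixed hx, sub_self]
      refine spec_le hm Q hQ F (fun i => hQf i _ (hF.2 i)) c hc ?_
      have := sum_av_le (K := K) (tr_rep (V := V) (A := Fin m → K)) e (m - 1) (fun J hJ x => by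
        have hJ' : J = univ := Finset.eq_univ_of_card J (by rw [hJ, Fintype.card_fin]; omega)
        exact ⟨x, by rw [hJ']; simp only [he]; exact (Finset.univ_sum_single x).symm⟩)
        (z - c) hc2
      rw [Nat.cast_sub hm] at this
      push_cast at this
      rw [← hz]
      change _ + ∑ i, ‖av (fun c : K => tr V (c • e i)) _‖ ^ 2 ≤ _
      linarith
    refine ⟨fun i => F i - w i, ⟨fun i a x => ?_, fun i a t => ?_⟩, ?_, ?_⟩
    · have := lin_sub α (θ i a x) (F i a) (F i a - w i a)
      rw [sub_sub_cancel, hF.1] at this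
      have h3 : lin α (θ i a x) (w i a) = w i a := by
        rw [hwa]; exact (lin_rep α (θ i a)).rho_av (toAdd x) _
      rw [h3] at this
      rw [PiLp.sub_apply, eq_sub_iff_add_eq]
      nth_rewrite 2 [this]
      abel
    · rw [PiLp.sub_apply, PiLp.sub_apply, hw, hF.2]
    · have hE0 : 0 ≤ E F := Finset.sum_nonneg fun i _ => sq_nonneg _
      rw [← Real.sq_sqrt hE0]
      refine pow_le_pow_left₀ dist_nonneg ((dist_pi_le_iff (Real.sqrt_nonneg _)).mpr fun i => ?_) 2
      rw [dist_eq_norm, sub_sub_cancel]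
      refine Real.le_sqrt_of_sq_le ?_
      have h4 : ‖F i - z‖ ^ 2 ≤ E F :=
        Finset.single_le_sum (f := fun i => ‖F i - z‖ ^ 2) (fun i _ => sq_nonneg _) (mem_univ i)
      linarith [i2 i, sq_nonneg ‖F i - z - w i‖]
    · refine (var_le hm (fun i => F i - w i) z).trans ?_
      have h5 : ∀ i, ‖F i - w i - z‖ ^ 2 ≤
          (1 + r / Fintype.card K) * ‖F i - z‖ ^ 2 - ‖Q i (F i - z)‖ ^ 2 := fun i => by
        rw [sub_right_comm]; linarith [i2 i, i3 i, i4 i]
      refine (Finset.sum_le_sum fun i _ => h5 i).trans ?_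
      rw [Finset.sum_sub_distrib, ← Finset.mul_sum]
      have h6 : 1 / ((m : ℝ) + 1) * E F ≤ ∑ i, ‖Q i (F i - z)‖ ^ 2 := by
        rw [one_div, inv_mul_le_iff₀ (by positivity)]; exact sp
      change (1 + r / Fintype.card K) * E F - _ ≤ _
      linarith)
  set z : HH (Fin m → K) V := (m : ℝ)⁻¹ • ∑ j, F j with hz
  have hFz : ∀ i, F i = z := fun i => by
    have := (Finset.sum_eq_zero_iff_of_nonneg (fun i _ => sq_nonneg _)).mp hE i (mem_univ i)
    exact sub_eq_zero.mp (norm_eq_zero.mp (pow_eq_zero_iff two_ne_zero |>.mp this))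
  have key : ∀ (J : Finset (Fin m)) (a : Fin m → K), z (∑ i ∈ J, Pi.single i (a i)) = z 0 := by
    intro J a
    induction J using Finset.induction_on with
    | empty => rw [Finset.sum_empty]
    | insert i J hi ih => rw [Finset.sum_insert hi, add_comm, ← ih, ← hFz i, hF.2]
  refine ⟨z 0, fun i a x => ?_⟩
  have := hF.1 i a x
  rwa [hFz, ← Finset.univ_sum_single a, key, Finset.univ_sum_single a] at this

end Pool.Agent.MP_ab7c65_al.H52T
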