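import Mathlib

/-!
Commuting projections, averages over finite abelian groups and a descent lemma.
-/

namespace Pool.Agent.MP_ab7c65_al.H52T

open Finset

variable {V : Type*} [NormedAddCommGroup V] [InnerProductSpace ℝ V]

/-- A symmetric idempotent. -/
structure IsProj (P : V →ₗ[ℝ] V) : Prop where
  sym : ∀ x y, inner ℝ (P x) y = inner ℝ x (P y)
  idem : ∀ x, P (P x) = P x

lemma IsProj.inner_self {P : V →ₗ[ℝ] V} (h : IsProj P) (v : V) :
    inner ℝ (P v) v = ‖P v‖ ^ 2 := by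
  rw [← real_inner_self_eq_norm_sq, ← h.sym, h.idem]

lemma IsProj.pyth {P : V →ₗ[ℝ] V} (h : IsProj P) (v : V) :
    ‖v - P v‖ ^ 2 = ‖v‖ ^ 2 - ‖P v‖ ^ 2 := by
  rw [norm_sub_sq_real, real_inner_comm, h.inner_self]; ring

lemma sum_proj_le {ι : Type*} [DecidableEq ι] (P : ι → V →ₗ[ℝ] V) (hP : ∀ i, IsProj (P i))
    (hc : ∀ i j x, P i (P j x) = P j (P i x)) (S : Finset ι) :
    ∀ (r : ℕ) (v : V), (∀ T ⊆ S, T.card = r + 1 → ∀ x, (∀ i ∈ T, P i x = x) → inner ℝ v x = 0) →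
      ∑ i ∈ S, ‖P i v‖ ^ 2 ≤ r * ‖v‖ ^ 2 := by
  induction S using Finset.induction_on with
  | empty => intro m v _; simp only [Finset.sum_empty]; positivity
  | insert j S hj ih =>
    intro m v hv
    rcases m with _ | m
    · have : ∀ i ∈ insert j S, ‖P i v‖ ^ 2 = 0 := by
        intro i hi
        rw [← (hP i).inner_self, real_inner_comm]
        exact hv {i} (by simpa using hi) (by simp) _ (by simp [(hP i).idem])
      rw [Finset.sum_eq_zero this]; simp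
    have i1 := ih m (P j v) (fun T hT hc' x hx => by
      rw [(hP j).sym]
      refine hv (insert j T) (Finset.insert_subset_insert _ hT) ?_ _ ?_
      · rw [Finset.card_insert_of_notMem (fun h => hj (hT h)), hc']
      · intro i hi
        rcases Finset.mem_insert.mp hi with rfl | hi
        · exact (hP i).idem x
        · rw [hc, hx i hi])
    have i2 := ih (m + 1) (v - P j v) (fun T hT hc' x hx => by
      have hT' : T ⊆ insert j S := hT.trans (Finset.subset_insert _ _)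
      rw [inner_sub_left, hv T hT' hc' x hx, (hP j).sym,
        hv T hT' hc' _ (fun i hi => by rw [hc, hx i hi])]
      simp)
    have e1 : ∀ i, ‖P i v‖ ^ 2 = ‖P i (P j v)‖ ^ 2 + ‖P i (v - P j v)‖ ^ 2 := by
      intro i
      rw [map_sub, hc i j v, (hP j).pyth]; ring
    rw [Finset.sum_insert hj, Finset.sum_congr rfl (fun i _ => e1 i), Finset.sum_add_distrib]
    rw [(hP j).pyth] at i2
    push_cast at *
    nlinarith

/-- An orthogonal representation of an additive group. -/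
structure IsRep {A : Type*} [AddCommGroup A] (ρ : A → V →ₗ[ℝ] V) : Prop where
  add : ∀ a b v, ρ (a + b) v = ρ a (ρ b v)
  zero : ∀ v, ρ 0 v = v
  inn : ∀ a x y, inner ℝ (ρ a x) (ρ a y) = inner ℝ x y

/-- The average of a finite family of operators. -/
noncomputable def av {A : Type*} [Fintype A] (ρ : A → V →ₗ[ℝ] V) : V →ₗ[ℝ] V :=
  (Fintype.card A : ℝ)⁻¹ • ∑ a, ρ a

lemma av_apply {A : Type*} [Fintype A] (ρ : A → V →ₗ[ℝ] V) (v : V) :
    av ρ v = (Fintype.card A : ℝ)⁻¹ • ∑ a, ρ a v := by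
  simp [av, LinearMap.sum_apply]

section rep
variable {A : Type*} [AddCommGroup A] [Fintype A] {ρ : A → V →ₗ[ℝ] V}

lemma IsRep.rho_av (h : IsRep ρ) (b : A) (v : V) : ρ b (av ρ v) = av ρ v := by
  rw [av_apply, map_smul, map_sum]
  congr 1
  exact Fintype.sum_equiv (Equiv.addLeft b) _ _ (fun a => (h.add b a v).symm)

lemma av_of_fixed {v : V} (hv : ∀ a, ρ a v = v) : av ρ v = v := by
  have : (Fintype.card A : ℝ) ≠ 0 := by exact_mod_cast Fintype.card_ne_zero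
  rw [av_apply, Finset.sum_congr rfl (fun a _ => hv a), Finset.sum_const, Finset.card_univ,
    ← Nat.cast_smul_eq_nsmul ℝ, smul_smul, inv_mul_cancel₀ this, one_smul]

lemma IsRep.isProj (h : IsRep ρ) : IsProj (av ρ) := by
  refine ⟨fun x y => ?_, fun x => av_of_fixed (fun a => h.rho_av a x)⟩
  rw [av_apply, av_apply, real_inner_smul_left, real_inner_smul_right, sum_inner, inner_sum]
  congr 1
  refine Fintype.sum_equiv (Equiv.neg A) _ _ (fun a => ?_)
  rw [← h.inn (-a), ← h.add, neg_add_cancel, h.zero]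
  rfl

end rep

lemma av_comm {A B : Type*} [Fintype A] [Fintype B] (ρ : A → V →ₗ[ℝ] V) (τ : B → V →ₗ[ℝ] V)
    (h : ∀ a b x, ρ a (τ b x) = τ b (ρ a x)) (x : V) : av ρ (av τ x) = av τ (av ρ x) := by
  simp only [av_apply, map_smul, map_sum, h, Finset.smul_sum]
  rw [Finset.sum_comm]
  refine Finset.sum_congr rfl fun a _ => Finset.sum_congr rfl fun b _ => smul_comm _ _ _

section code
variable {K U T : Type*} [Field K] [Fintype K] [AddCommGroup U] [Module K U] [Fintype T]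
  [DecidableEq T] {ρ : U → V →ₗ[ℝ] V}

omit [Fintype K] in
lemma IsRep.line (h : IsRep ρ) (x : U) : IsRep (fun c : K => ρ (c • x)) :=
  ⟨fun a b v => by rw [add_smul, h.add], fun v => by rw [zero_smul, h.zero],
    fun a y z => h.inn _ y z⟩

lemma sum_av_le (h : IsRep ρ) (L : T → U) (r : ℕ)
    (hL : ∀ J : Finset T, J.card = r + 1 → ∀ x : U, ∃ c : T → K, x = ∑ t ∈ J, c t • L t)
    (v : V) (hv : ∀ x, (∀ a, ρ a x = x) → inner ℝ v x = 0) :
    ∑ t, ‖av (fun c : K => ρ (c • L t)) v‖ ^ 2 ≤ r * ‖v‖ ^ 2 := by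
  refine sum_proj_le (fun t => av (fun c : K => ρ (c • L t))) (fun t => (h.line (L t)).isProj)
    (fun i j x => av_comm _ _ (fun a b y => by rw [← h.add, ← h.add, add_comm]) x) univ r v
    (fun J _ hJ x hx => hv x fun a => ?_)
  obtain ⟨c, rfl⟩ := hL J hJ a
  have key : ∀ J' : Finset T, J' ⊆ J → ρ (∑ t ∈ J', c t • L t) x = x := by
    intro J'
    induction J' using Finset.induction_on with
    | empty => intro _; rw [Finset.sum_empty, h.zero]
    | insert t J' ht ih =>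
      intro hs
      rw [Finset.sum_insert ht, h.add, ih ((Finset.subset_insert _ _).trans hs)]
      have h1 := hx t (hs (Finset.mem_insert_self _ _))
      have h2 := (h.line (K := K) (L t)).rho_av (c t) x
      rwa [h1] at h2
  exact key J le_rfl

lemma local_le [Fintype U] (h : IsRep ρ) (L : T → U) (r : ℕ)
    (hL : ∀ J : Finset T, J.card = r + 1 → ∀ x : U, ∃ c : T → K, x = ∑ t ∈ J, c t • L t)
    (u : T → V) (hu : ∀ t (c : K), ρ (c • L t) (u t) = u t) :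
    ‖∑ t, u t - av ρ (∑ t, u t)‖ ^ 2 ≤ r * ∑ t, ‖u t‖ ^ 2 := by
  set s := ∑ t, u t with hs
  set δ := s - av ρ s with hδ
  have o : ∀ x, (∀ a, ρ a x = x) → inner ℝ δ x = 0 := fun x hx => by
    rw [hδ, inner_sub_left, h.isProj.sym, av_of_fixed hx, sub_self]
  have h1 := sum_av_le h L r hL δ o
  have h2 : ‖δ‖ ^ 2 = ∑ t, inner ℝ (u t) (av (fun c : K => ρ (c • L t)) δ) := by
    have : ‖δ‖ ^ 2 = inner ℝ s δ := by
      have h3 := o _ (fun a => h.rho_av a s)
      rw [← real_inner_self_eq_norm_sq]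
      nth_rewrite 1 [hδ]
      rw [inner_sub_left, real_inner_comm δ (av ρ s), h3, sub_zero]
    rw [this, hs, sum_inner]
    refine Finset.sum_congr rfl fun t _ => ?_
    rw [← (h.line (K := K) (L t)).isProj.sym, av_of_fixed (hu t)]
  have h3 : ‖δ‖ ^ 2 ≤ ∑ t, ‖u t‖ * ‖av (fun c : K => ρ (c • L t)) δ‖ := by
    rw [h2]; exact Finset.sum_le_sum fun t _ => real_inner_le_norm _ _
  have h4 := Finset.sum_mul_sq_le_sq_mul_sq univ (fun t => ‖u t‖)
    (fun t => ‖av (fun c : K => ρ (c • L t)) δ‖)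
  have h5 : 0 ≤ ∑ t, ‖u t‖ ^ 2 := Finset.sum_nonneg fun t _ => sq_nonneg _
  have h6 : (‖δ‖ ^ 2) ^ 2 ≤ (∑ t, ‖u t‖ ^ 2) * (r * ‖δ‖ ^ 2) :=
    ((pow_le_pow_left₀ (sq_nonneg _) h3 2).trans h4).trans (mul_le_mul_of_nonneg_left h1 h5)
  rcases (sq_nonneg ‖δ‖).eq_or_lt with h0 | h0
  · rw [← h0]; positivity
  · exact le_of_mul_le_mul_right (by nlinarith) h0

end code

lemma var_le {m : ℕ} (hm : 0 < m) (x : Fin m → V) (y : V) :
    ∑ i, ‖x i - (m : ℝ)⁻¹ • ∑ j, x j‖ ^ 2 ≤ ∑ i, ‖x i - y‖ ^ 2 := by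
  have hm' : (m : ℝ) ≠ 0 := by exact_mod_cast hm.ne'
  set z := (m : ℝ)⁻¹ • ∑ j, x j with hz
  have h0 : ∑ i, (x i - z) = 0 := by
    rw [Finset.sum_sub_distrib, Finset.sum_const, Finset.card_univ, Fintype.card_fin,
      ← Nat.cast_smul_eq_nsmul ℝ, hz, smul_smul, mul_inv_cancel₀ hm', one_smul, sub_self]
  have h1 : ∀ i, ‖x i - y‖ ^ 2 =
      ‖x i - z‖ ^ 2 + 2 * inner ℝ (x i - z) (z - y) + ‖z - y‖ ^ 2 := fun i => by
    rw [← norm_add_sq_real, sub_add_sub_cancel]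
  rw [Finset.sum_congr rfl (fun i _ => h1 i), Finset.sum_add_distrib, Finset.sum_add_distrib,
    ← Finset.mul_sum, ← sum_inner, h0, inner_zero_left]
  have : 0 ≤ ∑ _i : Fin m, ‖z - y‖ ^ 2 := Finset.sum_nonneg fun t _ => sq_nonneg _
  linarith

/-- The spectral estimate for a product of complete graphs. -/
lemma spec_le {m : ℕ} (hm : 0 < m) (Q : Fin m → V →ₗ[ℝ] V) (hQ : ∀ i, IsProj (Q i))
    (F : Fin m → V) (hF : ∀ i, Q i (F i) = F i) (c : V) (hc : ∀ i, Q i c = c)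
    (hv : ‖(m : ℝ)⁻¹ • ∑ j, F j - c‖ ^ 2 + ∑ i, ‖Q i ((m : ℝ)⁻¹ • ∑ j, F j - c)‖ ^ 2 ≤
      m * ‖(m : ℝ)⁻¹ • ∑ j, F j - c‖ ^ 2) :
    ∑ i, ‖F i - (m : ℝ)⁻¹ • ∑ j, F j‖ ^ 2 ≤
      (m + 1) * ∑ i, ‖Q i (F i - (m : ℝ)⁻¹ • ∑ j, F j)‖ ^ 2 := by
  have hm' : (m : ℝ) ≠ 0 := by exact_mod_cast hm.ne'
  set z := (m : ℝ)⁻¹ • ∑ j, F j with hz
  set v := z - c with hvd
  have e0 : ∀ i, F i - z - Q i (F i - z) = -(v - Q i v) := fun i => by
    rw [hvd, map_sub, map_sub, hF, hc]; abel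
  set B := ∑ i, ‖v - Q i v‖ ^ 2 with hB
  have e1 : ∑ i, ‖F i - z‖ ^ 2 = ∑ i, ‖Q i (F i - z)‖ ^ 2 + B := by
    rw [hB, ← Finset.sum_add_distrib]
    refine Finset.sum_congr rfl fun i _ => ?_
    rw [← norm_neg (v - Q i v), ← e0, (hQ i).pyth]; ring
  have e2 : B = m * ‖v‖ ^ 2 - ∑ i, ‖Q i v‖ ^ 2 := by
    rw [hB, Finset.sum_congr rfl (fun i _ => (hQ i).pyth v), Finset.sum_sub_distrib]
    simp
  have e3 : ∑ i, (v - Q i v) = ∑ i, Q i (F i - z) := by
    have h0 : ∑ i, (F i - z) = 0 := by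
      rw [Finset.sum_sub_distrib, Finset.sum_const, Finset.card_univ, Fintype.card_fin,
        ← Nat.cast_smul_eq_nsmul ℝ, hz, smul_smul, mul_inv_cancel₀ hm', one_smul, sub_self]
    have h1 : ∑ i, (F i - z - Q i (F i - z)) = ∑ i, -(v - Q i v) :=
      Finset.sum_congr rfl fun i _ => e0 i
    rw [Finset.sum_sub_distrib, h0, Finset.sum_neg_distrib, zero_sub] at h1
    exact (neg_inj.mp h1).symm
  have e4 : B = inner ℝ (∑ i, Q i (F i - z)) v := by
    rw [← e3, sum_inner, e2]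
    simp only [inner_sub_left, real_inner_self_eq_norm_sq, (hQ _).inner_self]
    rw [Finset.sum_sub_distrib]; simp
  have e5 : ‖∑ i, Q i (F i - z)‖ ^ 2 ≤ m * ∑ i, ‖Q i (F i - z)‖ ^ 2 := by
    have h1 := norm_sum_le univ (fun i => Q i (F i - z))
    have h2 := sq_sum_le_card_mul_sum_sq (s := univ) (f := fun i => ‖Q i (F i - z)‖)
    rw [Finset.card_univ, Fintype.card_fin] at h2
    exact (pow_le_pow_left₀ (norm_nonneg _) h1 2).trans h2
  have e6 : ‖v‖ ^ 2 ≤ B := by rw [e2]; linarith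
  have e7 := real_inner_le_norm (∑ i, Q i (F i - z)) v
  rw [← e4] at e7
  have e8 : B ≤ ‖∑ i, Q i (F i - z)‖ ^ 2 := by
    nlinarith [sq_nonneg (‖∑ i, Q i (F i - z)‖ - ‖v‖)]
  rw [e1]; linarith

/-- Descent to a zero of the energy. -/
lemma descent {X : Type*} [MetricSpace X] [CompleteSpace X] (S : Set X) (hS : IsClosed S)
    (hne : S.Nonempty) (E : X → ℝ) (hE : Continuous E) (h0 : ∀ x, 0 ≤ E x) {κ : ℝ} (hκ0 : 0 ≤ κ)
    (hκ : κ < 1) (step : ∀ x ∈ S, ∃ y ∈ S, dist x y ^ 2 ≤ E x ∧ E y ≤ κ * E x) :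
    ∃ x ∈ S, E x = 0 := by
  choose! f hf using step
  obtain ⟨x0, hx0⟩ := hne
  have hs : ∀ n, f^[n] x0 ∈ S ∧ E (f^[n] x0) ≤ E x0 * κ ^ n := by
    intro n
    induction n with
    | zero => exact ⟨hx0, by simp⟩
    | succ n ih =>
      rw [Function.iterate_succ_apply']
      refine ⟨(hf _ ih.1).1, (hf _ ih.1).2.2.trans ?_⟩
      rw [pow_succ]; nlinarith [mul_le_mul_of_nonneg_left ih.2 hκ0]
  have hc : CauchySeq fun n => f^[n] x0 := by
    refine cauchySeq_of_le_geometric (Real.sqrt κ) (Real.sqrt (E x0))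
      (by rw [Real.sqrt_lt' one_pos]; simpa using hκ) fun n => ?_
    rw [Function.iterate_succ_apply']
    refine abs_le_of_sq_le_sq' ?_ (by positivity) |>.2
    rw [mul_pow, ← pow_mul, mul_comm n 2, pow_mul, Real.sq_sqrt (h0 _), Real.sq_sqrt hκ0]
    exact (hf _ (hs n).1).2.1.trans (hs n).2
  obtain ⟨x, hx⟩ := cauchySeq_tendsto_of_complete hc
  refine ⟨x, hS.mem_of_tendsto hx (Filter.Eventually.of_forall fun n => (hs n).1), ?_⟩
  have h1 := (hE.tendsto x).comp hx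
  have h2 : Filter.Tendsto (fun n : ℕ => E x0 * κ ^ n) Filter.atTop (nhds (E x0 * 0)) :=
    (tendsto_pow_atTop_nhds_zero_of_lt_one hκ0 hκ).const_mul _
  rw [mul_zero] at h2
  exact le_antisymm (le_of_tendsto_of_tendsto' h1 h2 fun n => (hs n).2) (h0 x)

end Pool.Agent.MP_ab7c65_al.H52T
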